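import Pool.Agent.Q54.TF2

/-!
# A natural number is represented by `T_x + T_y + 6 T_z` if and only if it is admissible

The question is answered in the affirmative.  The proof: for an admissible `n` put `m = n + 1`; the
helper files prove `4 m = u ^ 2 + v ^ 2 + 3 z ^ 2` with `z` odd, by the descent of Gauss and Dirichlet
for ternary forms (all positive integral ternary forms of determinant 3 which represent a suitable
residue class are equivalent), Dirichlet's theorem on primes in progressions and the reciprocity law;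
then `8 m = (u + v) ^ 2 + (u - v) ^ 2 + 6 z ^ 2` with all three squares odd.
-/

set_option autoImplicit false

namespace Pool.Agent.Q54.Withdrawn.AdmissibleIffRepresented

open Pool.Agent.Q54.TF

/-- `n` is represented by `T_x + T_y + 6 T_z`. -/
def Represented (n : ℕ) : Prop :=
  ∃ x y z : ℤ, (n : ℤ) = x * (x - 1) / 2 + y * (y - 1) / 2 + 6 * (z * (z - 1) / 2)

/-- `n` is admissible. -/
def Admissible (n : ℕ) : Prop :=
  ∀ r : ℕ, 1 ≤ r → ¬ (n : ℤ) ≡ 2 * 3 ^ (2 * r - 1) - 1 [ZMOD 3 ^ (2 * r)]

theorem two_T (x : ℤ) : 2 * (x * (x - 1) / 2) = x * (x - 1) := by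
  apply Int.mul_ediv_cancel'
  rcases Int.even_or_odd x with ⟨k, hk⟩ | ⟨k, hk⟩
  · exact Dvd.dvd.mul_right ⟨k, by omega⟩ _
  · exact Dvd.dvd.mul_left ⟨k, by omega⟩ _

/-- **Every** natural number `n` is represented if and only if it is admissible. -/
theorem result : ∀ n : ℕ, Represented n ↔ Admissible n := by
  intro n
  constructor
  · rintro ⟨x, y, z, h⟩ r hr hc
    obtain ⟨t, ht⟩ := hc.symm.dvd
    have hx := two_T x
    have hy := two_T y
    have hz := two_T z
    apply necessary r hr (2 * x - 1) (2 * y - 1) (2 * z - 1) (5 + 8 * t)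
    have e : (3 : ℤ) ^ (2 * r) = 3 * 3 ^ (2 * r - 1) := by
      rw [← pow_succ']
      congr 1
      omega
    rw [e] at ht
    have h8 : (2 * x - 1) ^ 2 + (2 * y - 1) ^ 2 + 6 * (2 * z - 1) ^ 2 = 8 * ((n : ℤ) + 1) := by
      linear_combination (-4) * hx + (-4) * hy + (-24) * hz - 8 * h
    linear_combination h8 + 8 * ht
  · intro hadm
    obtain ⟨u, v, z, hz, h⟩ := all (n + 1) (by omega) (by
      intro r hr hc
      apply hadm r hr
      have h1 : ((n + 1 : ℕ) : ℤ) ≡ ((2 * 3 ^ (2 * r - 1) : ℕ) : ℤ) [ZMOD ((3 ^ (2 * r) : ℕ) : ℤ)] :=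
        (Int.natCast_modEq_iff).2 hc
      push_cast at h1
      have h2 := h1.sub_right 1
      simpa using h2)
    have hodd : Odd (u + v) := by
      by_contra hc
      rw [Int.not_odd_iff_even] at hc
      have h1 : Even (u ^ 2 + v ^ 2) := by
        have : u ^ 2 + v ^ 2 = (u + v) ^ 2 - 2 * (u * v) := by ring
        rw [this]
        exact ((hc.pow_of_ne_zero (by norm_num))).sub (even_two_mul _)
      have h2 : Odd (3 * z ^ 2) := Odd.mul (by decide) hz.pow
      have h3 : Odd (u ^ 2 + v ^ 2 + 3 * z ^ 2) := h1.add_odd h2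
      rw [h] at h3
      rw [← Int.not_even_iff_odd] at h3
      exact h3 (Even.mul_right (by decide) _)
    obtain ⟨a, ha⟩ := hodd
    obtain ⟨c, hc⟩ := hz
    refine ⟨a + 1, a - v + 1, c + 1, ?_⟩
    have h1 := two_T (a + 1)
    have h2 := two_T (a - v + 1)
    have h3 := two_T (c + 1)
    have hu : u = 2 * a + 1 - v := by omega
    subst hu
    subst hc
    push_cast at h
    have h4 : 8 * (n : ℤ) = 8 * ((a + 1) * (a + 1 - 1) / 2 + (a - v + 1) * (a - v + 1 - 1) / 2 +
        6 * ((c + 1) * (c + 1 - 1) / 2)) := by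
      linear_combination (-2) * h + (-4) * h1 + (-4) * h2 + (-24) * h3
    linarith

end Pool.Agent.Q54.Withdrawn.AdmissibleIffRepresented
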